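import Mathlib

/-!
Self-maps of affine space over a finite field and geometric points of closed subvarieties:
basic definitions and facts about the algebraic closure of a finite field.
-/

namespace R855.Nil

open MvPolynomial

section geometry

variable {F : Type} [Field F]

/-- The set of geometric points (coordinates in the algebraic closure of `F`) of the closed
subvariety of affine `N`-space over `F` cut out by the ideal `I`. -/
def pts {N : ℕ} (I : Ideal (MvPolynomial (Fin N) F)) : Set (Fin N → AlgebraicClosure F) :=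
  zeroLocus (AlgebraicClosure F) I

/-- The action on geometric points of the regular self-map of affine `N`-space over `F` given by
the polynomials `T 0, …, T (N-1)`. -/
noncomputable def act {N : ℕ} (T : Fin N → MvPolynomial (Fin N) F)
    (x : Fin N → AlgebraicClosure F) : Fin N → AlgebraicClosure F :=
  fun i => aeval x (T i)

end geometry

section fieldfacts

variable {F : Type} [Field F] [Finite F]

theorem two_le_card : 2 ≤ Nat.card F := Finite.one_lt_card

theorem exists_period (c : AlgebraicClosure F) : ∃ m : ℕ, 1 ≤ m ∧ c ^ (Nat.card F) ^ m = c := by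
  have hint : IsIntegral F c := (AlgebraicClosure.isAlgebraic F).isIntegral.isIntegral c
  have : FiniteDimensional F (IntermediateField.adjoin F {c}) :=
    IntermediateField.adjoin.finiteDimensional hint
  have : Finite (IntermediateField.adjoin F {c}) := Module.finite_of_finite F
  refine ⟨Module.finrank F (IntermediateField.adjoin F {c}), Module.finrank_pos, ?_⟩
  have hcard : Nat.card (IntermediateField.adjoin F {c})
      = Nat.card F ^ Module.finrank F (IntermediateField.adjoin F {c}) :=
    Module.natCard_eq_pow_finrank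
  let _ : Fintype (IntermediateField.adjoin F {c}) := Fintype.ofFinite _
  have h := FiniteField.pow_card (IntermediateField.AdjoinSimple.gen F c)
  rw [← Nat.card_eq_fintype_card, hcard] at h
  have h2 := congrArg (algebraMap (IntermediateField.adjoin F {c}) (AlgebraicClosure F)) h
  rw [map_pow, IntermediateField.AdjoinSimple.algebraMap_gen] at h2
  exact h2

theorem card_eq_pow : ∃ p d : ℕ, p.Prime ∧ CharP F p ∧ Nat.card F = p ^ d := by
  let _ : Fintype F := Fintype.ofFinite F
  obtain ⟨p, hp⟩ := CharP.exists F
  have := hp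
  obtain ⟨n, hprime, hn⟩ := FiniteField.card F p
  exact ⟨p, n, hprime, hp, by rw [Nat.card_eq_fintype_card, hn]⟩

theorem qpow_inj (n : ℕ) {x y : AlgebraicClosure F}
    (h : x ^ (Nat.card F) ^ n = y ^ (Nat.card F) ^ n) : x = y := by
  obtain ⟨p, d, hp, hchar, hd⟩ := card_eq_pow (F := F)
  have : Fact p.Prime := ⟨hp⟩
  have : CharP (AlgebraicClosure F) p := charP_of_injective_algebraMap
    (algebraMap F (AlgebraicClosure F)).injective p
  rw [hd, ← pow_mul] at h
  exact (iterateFrobenius (AlgebraicClosure F) p (d * n)).injective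
    (by simpa [iterateFrobenius_def] using h)

theorem qsub_pow (n : ℕ) (x y : AlgebraicClosure F) :
    (x - y) ^ (Nat.card F) ^ n = x ^ (Nat.card F) ^ n - y ^ (Nat.card F) ^ n := by
  obtain ⟨p, d, hp, hchar, hd⟩ := card_eq_pow (F := F)
  have : Fact p.Prime := ⟨hp⟩
  have : CharP (AlgebraicClosure F) p := charP_of_injective_algebraMap
    (algebraMap F (AlgebraicClosure F)).injective p
  rw [hd, ← pow_mul]
  exact sub_pow_char_pow x y _

/-- all but finitely many elements of the algebraic closure are not fixed by the first `n`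
powers of the Frobenius. -/
theorem finite_bad (n : ℕ) :
    {c : AlgebraicClosure F | ∃ i : ℕ, 1 ≤ i ∧ i ≤ n ∧ c ^ (Nat.card F) ^ i = c}.Finite := by
  have h : {c : AlgebraicClosure F | ∃ i : ℕ, 1 ≤ i ∧ i ≤ n ∧ c ^ (Nat.card F) ^ i = c}
      ⊆ ⋃ i ∈ Finset.Icc 1 n, {c : AlgebraicClosure F | c ^ (Nat.card F) ^ i = c} := by
    rintro c ⟨i, h1, h2, h3⟩
    simp only [Set.mem_iUnion]
    exact ⟨i, Finset.mem_Icc.2 ⟨h1, h2⟩, h3⟩
  refine Set.Finite.subset (Set.Finite.biUnion (Finset.finite_toSet _) ?_) h
  intro i hi
  have hi1 : 1 ≤ i := (Finset.mem_Icc.1 (by simpa using hi)).1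
  have hq : 1 < (Nat.card F) ^ i := Nat.one_lt_pow (by omega) two_le_card
  have hne : (Polynomial.X ^ (Nat.card F) ^ i - Polynomial.X :
      Polynomial (AlgebraicClosure F)) ≠ 0 :=
    FiniteField.X_pow_card_sub_X_ne_zero _ hq
  refine Set.Finite.subset (Polynomial.finite_setOfPred_isRoot hne) ?_
  intro c hc
  simp only [Set.mem_ofPred_eq] at hc ⊢
  simp [Polynomial.IsRoot, hc]

theorem exists_good (n : ℕ) :
    ∃ c : AlgebraicClosure F, ∀ i : ℕ, 1 ≤ i → i ≤ n → c ^ (Nat.card F) ^ i ≠ c := by
  have : Infinite (AlgebraicClosure F) := IsAlgClosed.instInfinite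
  obtain ⟨c, hc⟩ := (finite_bad (F := F) n).exists_notMem
  refine ⟨c, fun i h1 h2 h3 => hc ⟨i, h1, h2, h3⟩⟩

end fieldfacts

/-- A geometric point of the closed subvariety defined by `I` lies on one of its irreducible
components. -/
theorem exists_component {F : Type} [Field F] {N : ℕ} (I : Ideal (MvPolynomial (Fin N) F))
    {y : Fin N → AlgebraicClosure F} (hy : y ∈ pts I) : ∃ P ∈ I.minimalPrimes, y ∈ pts P := by
  have hI : I ≤ RingHom.ker (aeval y : MvPolynomial (Fin N) F →ₐ[F] AlgebraicClosure F) := by
    intro f hf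
    rw [RingHom.mem_ker]
    exact hy f hf
  have : (RingHom.ker (aeval y : MvPolynomial (Fin N) F →ₐ[F] AlgebraicClosure F)).IsPrime :=
    RingHom.ker_isPrime _
  obtain ⟨P, hP, hle⟩ := Ideal.exists_minimalPrimes_le hI
  exact ⟨P, hP, fun f hf => by
    have := hle hf
    rwa [RingHom.mem_ker] at this⟩

end R855.Nil
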