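import Pool.Agent.R855.Nil.Step

/-!
A polynomial of small degree vanishing at the points `(c, c^Q, 1, ρ)` for almost all `c` vanishes
at all points `(x, y, 1, ρ)`.
-/

namespace R855.Nil

open MvPolynomial

/-- join two triples to a vector of length six -/
def join {K : Type} (a b : K × K × K) : Fin 6 → K := ![a.1, a.2.1, a.2.2, b.1, b.2.1, b.2.2]

theorem join_inj {K : Type} {a b a' b' : K × K × K} (h : join a b = join a' b') :
    a = a' ∧ b = b' := by
  have h0 := congrFun h 0
  have h1 := congrFun h 1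
  have h2 := congrFun h 2
  have h3 := congrFun h 3
  have h4 := congrFun h 4
  have h5 := congrFun h 5
  simp only [join] at h0 h1 h2 h3 h4 h5
  exact ⟨Prod.ext h0 (Prod.ext h1 h2), Prod.ext h3 (Prod.ext h4 h5)⟩

theorem exists_join {K : Type} (y : Fin 6 → K) : ∃ a b, y = join a b :=
  ⟨(y 0, y 1, y 2), (y 3, y 4, y 5), by
    funext i
    fin_cases i <;> rfl⟩

/-- the linear map sending `X^n` to `x^(n mod Q) * y^(n div Q)` -/
noncomputable def digit {K : Type} [Field K] (Q : ℕ) (x y : K) : Polynomial K →ₗ[K] K :=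
  Polynomial.lsum fun n => (LinearMap.id : K →ₗ[K] K).smulRight (x ^ (n % Q) * y ^ (n / Q))

theorem digit_monomial {K : Type} [Field K] (Q : ℕ) (x y : K) (n : ℕ) (a : K) :
    digit Q x y (Polynomial.monomial n a) = a * (x ^ (n % Q) * y ^ (n / Q)) := by
  simp [digit, Polynomial.lsum_apply, Polynomial.sum_monomial_index]

theorem digit_aeval {K F : Type} [Field K] [Field F] [Algebra F K]
    (f : MvPolynomial (Fin 6) F) (Q : ℕ) (hdeg : f.totalDegree < Q) (ρ : K × K × K) (x y : K) :
    digit Q x y (aeval (![Polynomial.X, Polynomial.X ^ Q, 1, Polynomial.C ρ.1,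
      Polynomial.C ρ.2.1, Polynomial.C ρ.2.2] : Fin 6 → Polynomial K) f)
      = aeval (join (x, y, 1) ρ) f := by
  rw [aeval_def, eval₂_eq', aeval_def, eval₂_eq', map_sum]
  refine Finset.sum_congr rfl fun m hm => ?_
  have hm0 : m 0 < Q := by
    refine lt_of_le_of_lt ?_ hdeg
    refine le_trans ?_ (le_totalDegree hm)
    rw [Finsupp.sum_fintype _ _ (fun _ => rfl)]
    exact Finset.single_le_sum (f := fun i => m i) (fun _ _ => Nat.zero_le _) (Finset.mem_univ 0)
  have e1 : (algebraMap F (Polynomial K)) (coeff m f) *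
      ∏ i, (![Polynomial.X, Polynomial.X ^ Q, 1, Polynomial.C ρ.1,
      Polynomial.C ρ.2.1, Polynomial.C ρ.2.2] : Fin 6 → Polynomial K) i ^ m i
      = Polynomial.monomial (m 0 + Q * m 1)
        (algebraMap F K (coeff m f) * (ρ.1 ^ m 3 * ρ.2.1 ^ m 4 * ρ.2.2 ^ m 5)) := by
    rw [Polynomial.algebraMap_apply, ← Polynomial.C_mul_X_pow_eq_monomial]
    simp only [Fin.prod_univ_six]
    simp only [Matrix.cons_val]
    rw [pow_add, pow_mul, map_mul, map_mul, map_mul, map_pow, map_pow, map_pow]
    ring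
  rw [e1, digit_monomial]
  have h1 : (m 0 + Q * m 1) % Q = m 0 := by
    rw [Nat.add_mul_mod_self_left, Nat.mod_eq_of_lt hm0]
  have h2 : (m 0 + Q * m 1) / Q = m 1 := by
    rw [Nat.add_mul_div_left _ _ (by omega), Nat.div_eq_of_lt hm0, zero_add]
  rw [h1, h2]
  simp only [Fin.prod_univ_six, join, Matrix.cons_val]
  ring

theorem vanish_of_cofinite {K F : Type} [Field K] [Infinite K] [Field F] [Algebra F K]
    (f : MvPolynomial (Fin 6) F) (Q : ℕ) (hdeg : f.totalDegree < Q) (ρ : K × K × K)
    (hvan : {c : K | aeval (join (c, c ^ Q, 1) ρ) f ≠ 0}.Finite) (x y : K) :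
    aeval (join (x, y, 1) ρ) f = 0 := by
  have hg : aeval (![Polynomial.X, Polynomial.X ^ Q, 1, Polynomial.C ρ.1,
      Polynomial.C ρ.2.1, Polynomial.C ρ.2.2] : Fin 6 → Polynomial K) f = 0 := by
    refine Polynomial.eq_zero_of_infinite_isRoot _ ?_
    refine Set.Infinite.mono ?_ hvan.infinite_compl
    intro c hc
    simp only [Set.mem_compl_iff, Set.mem_ofPred_eq, not_not] at hc
    change Polynomial.IsRoot _ c
    rw [Polynomial.IsRoot, ← hc]
    have key : (Polynomial.aeval c).restrictScalars F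
        (aeval (![Polynomial.X, Polynomial.X ^ Q, 1, Polynomial.C ρ.1,
      Polynomial.C ρ.2.1, Polynomial.C ρ.2.2] : Fin 6 → Polynomial K) f)
        = aeval (join (c, c ^ Q, 1) ρ) f := by
      rw [MvPolynomial.comp_aeval_apply]
      congr 2
      funext i
      fin_cases i <;> simp [join]
    rw [← key]
    simp [Polynomial.coe_aeval_eq_eval]
  rw [← digit_aeval f Q hdeg ρ x y, hg, map_zero]

end R855.Nil
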