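import Pool.Agent.R855.Nil.Base

/-!
Powers of the Frobenius on the algebraic closure of a finite field, with exponent `Q` a power of
the cardinality of the field, and a Vandermonde-type product with controlled values.
-/

namespace R855.Nil

/-- the properties of the `Q`-power map which are used -/
structure Fr (K : Type) [Field K] (Q : ℕ) : Prop where
  two_le : 2 ≤ Q
  add : ∀ (n : ℕ) (x y : K), (x + y) ^ Q ^ n = x ^ Q ^ n + y ^ Q ^ n
  inj : ∀ (n : ℕ) (x y : K), x ^ Q ^ n = y ^ Q ^ n → x = y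
  per : ∀ c : K, ∃ m : ℕ, 1 ≤ m ∧ c ^ Q ^ m = c
  cast : (Q : K) = 0

theorem fr_card {F : Type} [Field F] [Finite F] (N : ℕ) :
    Fr (AlgebraicClosure F) (Nat.card F ^ (N + 1)) := by
  have hq : 2 ≤ Nat.card F := two_le_card
  have hpow : ∀ n : ℕ, (Nat.card F ^ (N + 1)) ^ n = Nat.card F ^ ((N + 1) * n) := fun n => by
    rw [← pow_mul]
  refine ⟨?_, ?_, ?_, ?_, ?_⟩
  · calc 2 ≤ Nat.card F := hq
      _ = Nat.card F ^ 1 := (pow_one _).symm
      _ ≤ Nat.card F ^ (N + 1) := Nat.pow_le_pow_right (by omega) (by omega)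
  · intro n x y
    rw [hpow]
    have h := qsub_pow (F := F) ((N + 1) * n) (x + y) y
    rw [add_sub_cancel_right] at h
    rw [h]
    ring
  · intro n x y h
    rw [hpow] at h
    exact qpow_inj _ h
  · intro c
    obtain ⟨m, hm, h⟩ := exists_period (F := F) c
    refine ⟨m, hm, ?_⟩
    rw [hpow, mul_comm]
    have : ∀ j : ℕ, c ^ Nat.card F ^ (m * j) = c := by
      intro j
      induction j with
      | zero => simp
      | succ j ih => rw [Nat.mul_succ, pow_add, pow_mul, ih, h]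
    exact this _
  · obtain ⟨p, d, hp, hchar, hd⟩ := card_eq_pow (F := F)
    have hpf : Fact p.Prime := ⟨hp⟩
    have hchar' : CharP (AlgebraicClosure F) p := charP_of_injective_algebraMap
      (algebraMap F (AlgebraicClosure F)).injective p
    have hd0 : d ≠ 0 := by
      rintro rfl
      rw [pow_zero] at hd
      omega
    rw [CharP.cast_eq_zero_iff (AlgebraicClosure F) p, hd, ← pow_mul]
    exact dvd_pow_self p (mul_ne_zero hd0 (by omega))

section

variable {K : Type} [Field K] {Q : ℕ}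

theorem Fr.sub (h : Fr K Q) (n : ℕ) (x y : K) : (x - y) ^ Q ^ n = x ^ Q ^ n - y ^ Q ^ n := by
  have h1 := h.add n (x - y) y
  rw [sub_add_cancel] at h1
  rw [h1]
  ring

theorem Fr.zero (h : Fr K Q) (n : ℕ) : (0 : K) ^ Q ^ n = 0 :=
  zero_pow (pow_ne_zero _ (by have := h.two_le; omega))

theorem Fr.neg (h : Fr K Q) (n : ℕ) (x : K) : (-x) ^ Q ^ n = - x ^ Q ^ n := by
  have h1 := h.sub n 0 x
  rw [h.zero, zero_sub, zero_sub] at h1
  exact h1

theorem pp (x : K) (a b : ℕ) : (x ^ Q ^ a) ^ Q ^ b = x ^ Q ^ (a + b) := by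
  rw [← pow_mul, ← pow_add]

theorem Fr.per_mul {c : K} {m : ℕ} (hm : c ^ Q ^ m = c) (j : ℕ) :
    c ^ Q ^ (m * j) = c := by
  induction j with
  | zero => simp
  | succ j ih => rw [Nat.mul_succ, pow_add, pow_mul, ih, hm]

/-- the conjugates used in the Vandermonde-type product -/
def gg (Q : ℕ) (c : K) (i j : ℕ) : K := c ^ Q ^ (4 * i + 3 * j)

theorem gg_shift (c : K) (i j : ℕ) : (gg Q c i j) ^ Q ^ 7 = gg Q c (i + 1) (j + 1) := by
  simp only [gg]
  rw [pp]
  congr 2
  ring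

/-- the Vandermonde-type product -/
def AA (Q : ℕ) (c : K) (n : ℕ) : K :=
  ∏ i ∈ Finset.range (n + 1), ∏ j ∈ Finset.range i, (gg Q c i j - gg Q c j i)

/-- its first column -/
def BB (Q : ℕ) (c : K) (n : ℕ) : K :=
  ∏ i ∈ Finset.range n, (gg Q c (i + 1) 0 - gg Q c 0 (i + 1))

theorem AA_zero (c : K) : AA Q c 0 = 1 := by simp [AA]

theorem BB_succ (c : K) (n : ℕ) :
    BB Q c (n + 1) = BB Q c n * (gg Q c (n + 1) 0 - gg Q c 0 (n + 1)) := by
  simp only [BB]
  rw [Finset.prod_range_succ]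

theorem AA_pow (h : Fr K Q) (c : K) (n : ℕ) : (AA Q c n) ^ Q ^ 7 =
    ∏ i ∈ Finset.range (n + 1), ∏ j ∈ Finset.range i,
      (gg Q c (i + 1) (j + 1) - gg Q c (j + 1) (i + 1)) := by
  simp only [AA]
  rw [← Finset.prod_pow]
  refine Finset.prod_congr rfl fun i _ => ?_
  rw [← Finset.prod_pow]
  refine Finset.prod_congr rfl fun j _ => ?_
  rw [h.sub, gg_shift, gg_shift]

theorem AA_succ (h : Fr K Q) (c : K) (n : ℕ) :
    AA Q c (n + 1) = (AA Q c n) ^ Q ^ 7 * BB Q c (n + 1) := by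
  rw [AA_pow h]
  simp only [AA, BB]
  rw [Finset.prod_range_succ' _ (n + 1), Finset.prod_range_zero, mul_one,
    ← Finset.prod_mul_distrib]
  refine Finset.prod_congr rfl fun i _ => ?_
  rw [Finset.prod_range_succ']

/-- **Control of the product.**  At a point of period `n + 1` the product is, up to sign, fixed by
the seventh power of Frobenius. -/
theorem AA_control (h : Fr K Q) {c : K} {n : ℕ} (hc : c ^ Q ^ (n + 1) = c) :
    (AA Q c n) ^ Q ^ 7 = (-1) ^ n * AA Q c n := by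
  rw [AA_pow h, Finset.prod_range_succ]
  have h2 : AA Q c n = (∏ i ∈ Finset.range n, ∏ j ∈ Finset.range i,
      (gg Q c (i + 1) (j + 1) - gg Q c (j + 1) (i + 1))) *
      ∏ i ∈ Finset.range n, (gg Q c (i + 1) 0 - gg Q c 0 (i + 1)) := by
    simp only [AA]
    rw [Finset.prod_range_succ' _ n, Finset.prod_range_zero, mul_one,
      ← Finset.prod_mul_distrib]
    refine Finset.prod_congr rfl fun i _ => ?_
    rw [Finset.prod_range_succ']
  have h3 : ∏ j ∈ Finset.range n, (gg Q c (n + 1) (j + 1) - gg Q c (j + 1) (n + 1))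
      = (-1) ^ n * ∏ i ∈ Finset.range n, (gg Q c (i + 1) 0 - gg Q c 0 (i + 1)) := by
    have h4 : ((-1 : K)) ^ n = ∏ _i ∈ Finset.range n, (-1 : K) := by
      rw [Finset.prod_const, Finset.card_range]
    rw [h4, ← Finset.prod_mul_distrib]
    refine Finset.prod_congr rfl fun j _ => ?_
    have e1 : gg Q c (n + 1) (j + 1) = gg Q c 0 (j + 1) := by
      simp only [gg]
      rw [pow_add, pow_mul, mul_comm 4 (n + 1), Fr.per_mul hc]
      simp
    have e2 : gg Q c (j + 1) (n + 1) = gg Q c (j + 1) 0 := by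
      simp only [gg]
      rw [add_comm (4 * (j + 1)), pow_add, pow_mul, mul_comm 3 (n + 1), Fr.per_mul hc]
      simp
    rw [e1, e2]
    ring
  rw [h3, h2]
  ring

theorem AA_ne (h : Fr K Q) {c : K} {n : ℕ} (hc : ∀ i, 1 ≤ i → i ≤ n → c ^ Q ^ i ≠ c) :
    AA Q c n ≠ 0 := by
  simp only [AA]
  refine Finset.prod_ne_zero_iff.2 fun i hi => Finset.prod_ne_zero_iff.2 fun j hj => ?_
  rw [Finset.mem_range] at hi hj
  intro h0
  rw [sub_eq_zero] at h0
  simp only [gg] at h0
  have e1 : 4 * i + 3 * j = (i - j) + (3 * i + 4 * j) := by omega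
  have e2 : 4 * j + 3 * i = 0 + (3 * i + 4 * j) := by omega
  rw [e1, e2, ← pp c (i - j) (3 * i + 4 * j), ← pp c 0 (3 * i + 4 * j)] at h0
  have h1 := h.inj _ _ _ h0
  rw [pow_zero, pow_one] at h1
  exact hc (i - j) (by omega) (by omega) h1

/-- consequence of the control: a fixed power of the product is `1` -/
theorem AA_pow_eq_one (h : Fr K Q) {c : K} {n : ℕ} (hc : c ^ Q ^ (n + 1) = c)
    (hc' : ∀ i, 1 ≤ i → i ≤ n → c ^ Q ^ i ≠ c) (k : ℕ) :
    ((AA Q c n) ^ Q ^ k) ^ (Q ^ 14 - 1) = 1 := by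
  have h1 := AA_control h hc
  have hQ : 1 ≤ Q ^ 14 := Nat.one_le_pow _ _ (by have := h.two_le; omega)
  have h2 : (AA Q c n) ^ Q ^ 14 = AA Q c n := by
    have e : (14 : ℕ) = 7 + 7 := rfl
    rw [e, ← pp, h1, mul_pow, h1]
    have e3 : ((-1 : K) ^ n) ^ Q ^ 7 = (-1) ^ n := by
      rw [← pow_mul, mul_comm, pow_mul, h.neg, one_pow]
    rw [e3, ← mul_assoc, ← mul_pow]
    simp
  have h3 : (AA Q c n) ^ (Q ^ 14 - 1) = 1 := by
    have h4 : (AA Q c n) ^ (Q ^ 14 - 1) * AA Q c n = 1 * AA Q c n := by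
      rw [← pow_succ, Nat.sub_add_cancel hQ, h2, one_mul]
    exact mul_right_cancel₀ (AA_ne h hc') h4
  rw [← pow_mul, mul_comm, pow_mul, h3, one_pow]

/-- the trace polynomial -/
def tr (Q : ℕ) (c : K) (n : ℕ) : K := ∑ i ∈ Finset.range n, c ^ Q ^ i

theorem Fr.sum (h : Fr K Q) {ι : Type} (s : Finset ι) (f : ι → K) (n : ℕ) :
    (∑ i ∈ s, f i) ^ Q ^ n = ∑ i ∈ s, (f i) ^ Q ^ n := by
  classical
  induction s using Finset.induction_on with
  | empty => simp only [Finset.sum_empty]; exact h.zero n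
  | insert a s ha ih => rw [Finset.sum_insert ha, Finset.sum_insert ha, h.add, ih]

theorem tr_succ (h : Fr K Q) (c : K) (n : ℕ) : tr Q c (n + 1) = c + (tr Q c n) ^ Q := by
  have h1 := h.sum (Finset.range n) (fun i => c ^ Q ^ i) 1
  rw [pow_one] at h1
  simp only [tr]
  rw [h1, Finset.sum_range_succ', pow_zero, pow_one, add_comm]
  congr 1
  refine Finset.sum_congr rfl fun i _ => ?_
  rw [← pow_mul, ← pow_succ]

theorem tr_sub (h : Fr K Q) (c : K) (n : ℕ) : (tr Q c n) ^ Q - tr Q c n = c ^ Q ^ n - c := by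
  have h1 := tr_succ h c n
  have h2 : tr Q c (n + 1) = tr Q c n + c ^ Q ^ n := by
    simp only [tr]
    rw [Finset.sum_range_succ]
  rw [h2] at h1
  linear_combination -h1

end

end R855.Nil
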