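import Pool.Agent.R855.Nil.Slope

/-!
Counting: finiteness of solution sets and infinitely many elements with a given trace label.
-/

namespace R855.Nil

section

variable {K : Type} [Field K]

/-- solutions of `x = a x^n + b` -/
theorem fin1 {n : ℕ} (hn : 2 ≤ n) (a b : K) : {x : K | x = a * x ^ n + b}.Finite := by
  have hne : (Polynomial.C a * Polynomial.X ^ n + Polynomial.C b - Polynomial.X :
      Polynomial K) ≠ 0 := by
    intro h
    have h1 := congrArg (fun g => Polynomial.coeff g 1) h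
    simp only [Polynomial.coeff_sub, Polynomial.coeff_add, Polynomial.coeff_C_mul,
      Polynomial.coeff_X_pow, Polynomial.coeff_X_one, Polynomial.coeff_zero,
      Polynomial.coeff_C] at h1
    rw [if_neg (by omega), if_neg (by omega)] at h1
    simp at h1
  refine Set.Finite.subset (Polynomial.finite_setOfPred_isRoot hne) ?_
  intro x hx
  simp only [Set.mem_ofPred_eq] at hx ⊢
  simp only [Polynomial.IsRoot, Polynomial.eval_sub, Polynomial.eval_add, Polynomial.eval_mul,
    Polynomial.eval_C, Polynomial.eval_pow, Polynomial.eval_X]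
  rw [← hx, sub_self]

variable {Q : ℕ}

theorem Fr.two_le_pow (h : Fr K Q) {i : ℕ} (hi : 1 ≤ i) : 2 ≤ Q ^ i := by
  calc 2 ≤ Q := h.two_le
    _ = Q ^ 1 := (pow_one _).symm
    _ ≤ Q ^ i := Nat.pow_le_pow_right (by have := h.two_le; omega) hi

theorem Fr.finite_bad (h : Fr K Q) (n : ℕ) :
    {c : K | ∃ i : ℕ, 1 ≤ i ∧ i ≤ n ∧ c ^ Q ^ i = c}.Finite := by
  have h1 : {c : K | ∃ i : ℕ, 1 ≤ i ∧ i ≤ n ∧ c ^ Q ^ i = c}
      ⊆ ⋃ i ∈ Finset.Icc 1 n, {c : K | c = 1 * c ^ Q ^ i + 0} := by
    rintro c ⟨i, h1, h2, h3⟩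
    simp only [Set.mem_iUnion]
    refine ⟨i, Finset.mem_Icc.2 ⟨h1, h2⟩, ?_⟩
    simp only [Set.mem_ofPred_eq]
    rw [h3]
    ring
  refine Set.Finite.subset (Set.Finite.biUnion (Finset.finite_toSet _) ?_) h1
  intro i hi
  have hi1 : 1 ≤ i := (Finset.mem_Icc.1 (by simpa using hi)).1
  exact fin1 (h.two_le_pow hi1) 1 0

theorem Fr.exists_good [Infinite K] (h : Fr K Q) (n : ℕ) :
    ∃ c : K, ∀ i : ℕ, 1 ≤ i → i ≤ n → c ^ Q ^ i ≠ c := by
  obtain ⟨c, hc⟩ := (h.finite_bad n).exists_notMem
  exact ⟨c, fun i h1 h2 h3 => hc ⟨i, h1, h2, h3⟩⟩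

/-- `m` is the exact period of `c` under the `Q`-power map -/
def ExactPeriod (Q : ℕ) (c : K) (m : ℕ) : Prop :=
  1 ≤ m ∧ c ^ Q ^ m = c ∧ ∀ i, 1 ≤ i → i < m → c ^ Q ^ i ≠ c

theorem Fr.exists_exactPeriod (h : Fr K Q) (c : K) : ∃ m, ExactPeriod Q c m := by
  classical
  have hex : ∃ m : ℕ, 1 ≤ m ∧ c ^ Q ^ m = c := h.per c
  refine ⟨Nat.find hex, (Nat.find_spec hex).1, (Nat.find_spec hex).2, fun i hi hlt heq => ?_⟩
  exact Nat.find_min hex hlt ⟨hi, heq⟩

/-- prime periods -/
theorem exactPeriod_of_prime {c : K} {m : ℕ} (hm : m.Prime) (h1 : c ^ Q ^ m = c)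
    (h2 : c ^ Q ≠ c) : ExactPeriod Q c m := by
  refine ⟨hm.one_lt.le, h1, fun i hi hlt heq => ?_⟩
  have hiter : ∀ n : ℕ, (fun x : K => x ^ Q)^[n] c = c ^ Q ^ n := by
    intro n
    induction n with
    | zero => simp
    | succ n ih =>
      rw [Function.iterate_succ_apply', ih, ← pow_mul, ← pow_succ]
  have p1 : Function.IsPeriodicPt (fun x : K => x ^ Q) m c := by
    change (fun x : K => x ^ Q)^[m] c = c
    rw [hiter]; exact h1
  have p2 : Function.IsPeriodicPt (fun x : K => x ^ Q) i c := by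
    change (fun x : K => x ^ Q)^[i] c = c
    rw [hiter]; exact heq
  have p3 := p1.gcd p2
  have hg : Nat.gcd m i = 1 := by
    rw [← Nat.Coprime, Nat.Prime.coprime_iff_not_dvd hm]
    intro hdvd
    exact absurd (Nat.le_of_dvd (by omega) hdvd) (by omega)
  rw [hg] at p3
  apply h2
  exact p3

/-- the trace polynomial -/
noncomputable def trp (K : Type) [Field K] (Q m : ℕ) : Polynomial K :=
  ∑ i ∈ Finset.range m, Polynomial.X ^ Q ^ i

theorem natDegree_trp (h : Fr K Q) (m : ℕ) : (trp K Q (m + 1)).natDegree = Q ^ m := by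
  have hQ := h.two_le
  induction m with
  | zero => simp [trp]
  | succ m ih =>
    have e : trp K Q (m + 1 + 1) = trp K Q (m + 1) + Polynomial.X ^ Q ^ (m + 1) := by
      simp only [trp]
      rw [Finset.sum_range_succ]
    rw [e, Polynomial.natDegree_add_eq_right_of_natDegree_lt, Polynomial.natDegree_X_pow]
    rw [ih, Polynomial.natDegree_X_pow]
    exact Nat.pow_lt_pow_right (by omega) (by omega)

theorem derivative_trp (h : Fr K Q) (m : ℕ) :
    Polynomial.derivative (trp K Q (m + 1)) = 1 := by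
  simp only [trp]
  rw [Finset.sum_range_succ', map_add, map_sum]
  have h0 : ∑ i ∈ Finset.range m, Polynomial.derivative (Polynomial.X ^ Q ^ (i + 1) :
      Polynomial K) = 0 := by
    refine Finset.sum_eq_zero fun i _ => ?_
    rw [Polynomial.derivative_X_pow, Nat.cast_pow, h.cast, zero_pow (by omega), map_zero,
      zero_mul]
  rw [h0, zero_add, pow_zero, pow_one, Polynomial.derivative_X]

theorem eval_trp (c : K) (m : ℕ) : Polynomial.eval c (trp K Q m) = tr Q c m := by
  simp [trp, tr, Polynomial.eval_finsetSum]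

/-- for every `u` in the field with `Q` elements there are infinitely many `c` whose trace (from
the field generated by `c` over the field with `Q` elements) is `u` -/
theorem label_infinite [IsAlgClosed K] (h : Fr K Q) {u : K} (hu : u ^ Q = u) :
    {c : K | ∃ m, ExactPeriod Q c m ∧ tr Q c m = u}.Infinite := by
  classical
  intro hfin
  have hQ := h.two_le
  obtain ⟨S, hS⟩ := hfin.exists_finset
  have hbad := h.finite_bad 1
  obtain ⟨S', hS'⟩ := hbad.exists_finset
  obtain ⟨m', hm'1, hm'2⟩ := Nat.exists_infinite_primes (S.card + S'.card + 2)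
  obtain ⟨m, rfl⟩ : ∃ m, m' = m + 1 := ⟨m' - 1, by omega⟩
  have hnd : (trp K Q (m + 1) - Polynomial.C u).natDegree = Q ^ m := by
    rw [Polynomial.natDegree_sub_C, natDegree_trp h]
  have hsep : (trp K Q (m + 1) - Polynomial.C u).Separable := by
    rw [Polynomial.separable_def, Polynomial.derivative_sub, Polynomial.derivative_C, sub_zero,
      derivative_trp h]
    exact isCoprime_one_right
  have hne : trp K Q (m + 1) - Polynomial.C u ≠ 0 := hsep.ne_zero
  have hnodup := Polynomial.nodup_roots hsep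
  have hcard := (IsAlgClosed.splits (trp K Q (m + 1) - Polynomial.C u)).natDegree_eq_card_roots
  rw [hnd] at hcard
  have hsub : (trp K Q (m + 1) - Polynomial.C u).roots.toFinset ⊆ S ∪ S' := by
    intro c hc
    rw [Multiset.mem_toFinset, Polynomial.mem_roots hne, Polynomial.IsRoot,
      Polynomial.eval_sub, Polynomial.eval_C, eval_trp, sub_eq_zero] at hc
    have hper : c ^ Q ^ (m + 1) = c := by
      have h1 := tr_sub h c (m + 1)
      rw [hc, hu, sub_self] at h1
      exact (sub_eq_zero.1 h1.symm)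
    rw [Finset.mem_union]
    by_cases h2 : c ^ Q = c
    · right
      rw [hS']
      exact ⟨1, le_refl 1, le_refl 1, by rw [pow_one]; exact h2⟩
    · left
      rw [hS]
      exact ⟨m + 1, exactPeriod_of_prime hm'2 hper h2, hc⟩
  have h3 := Finset.card_le_card hsub
  rw [Multiset.toFinset_card_of_nodup hnodup, ← hcard] at h3
  have h4 := Finset.card_union_le S S'
  have h5 : m < Q ^ m := Nat.lt_pow_self (by omega)
  omega

end

end R855.Nil
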