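import Pool.Agent.R855.Nil.Digit

/-!
The product of two copies of the Frobenius-type map, as a self-map of affine `6`-space over `F`,
and the geometrically nilpotent surfaces `J_k`.
-/

namespace R855.Nil

open MvPolynomial

section

variable {F : Type} [Field F]

/-- every point of `𝔭` is sent by some iterate to one and the same fixed point -/
def GNPrime {N : ℕ} (T : Fin N → MvPolynomial (Fin N) F)
    (𝔭 : Ideal (MvPolynomial (Fin N) F)) : Prop :=
  ∃ P : Fin N → AlgebraicClosure F, act T P = P ∧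
    ∀ y ∈ pts 𝔭, ∃ n : ℕ, 1 ≤ n ∧ (act T)^[n] y = P

/-- Geometrically nilpotent closed subvarieties (defined over `F`, possibly reducible or empty):
each irreducible component is geometrically nilpotent. -/
def GeomNilpotent {N : ℕ} (T : Fin N → MvPolynomial (Fin N) F)
    (I : Ideal (MvPolynomial (Fin N) F)) : Prop :=
  ∀ 𝔭 ∈ I.minimalPrimes, GNPrime T 𝔭

/-- The product of two copies of the map `t`. -/
noncomputable def TT (F : Type) [Field F] (q : ℕ) : Fin 6 → MvPolynomial (Fin 6) F :=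
  ![(X 1 - X 0) * X 2 ^ (q ^ 2 - q - 1) * (X 0 * X 2 ^ (q - 1)),
    (X 1 - X 0) * X 2 ^ (q ^ 2 - q - 1) * X 1 ^ q,
    (X 1 - X 0) * X 2 ^ (q ^ 2 - q - 1) * X 2 ^ q,
    (X 4 - X 3) * X 5 ^ (q ^ 2 - q - 1) * (X 3 * X 5 ^ (q - 1)),
    (X 4 - X 3) * X 5 ^ (q ^ 2 - q - 1) * X 4 ^ q,
    (X 4 - X 3) * X 5 ^ (q ^ 2 - q - 1) * X 5 ^ q]

theorem act_TT (q : ℕ) (a b : AlgebraicClosure F × AlgebraicClosure F × AlgebraicClosure F) :
    act (TT F q) (join a b) = join (step q a) (step q b) := by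
  funext i
  fin_cases i <;> simp [act, TT, join, step]

theorem iter_TT (q : ℕ) (n : ℕ)
    (a b : AlgebraicClosure F × AlgebraicClosure F × AlgebraicClosure F) :
    (act (TT F q))^[n] (join a b) = join ((step q)^[n] a) ((step q)^[n] b) := by
  induction n with
  | zero => rfl
  | succ n ih =>
    rw [Function.iterate_succ_apply', ih, act_TT, Function.iterate_succ_apply',
      Function.iterate_succ_apply']

/-- the ideal of the surface-by-surface product `J_k` -/
noncomputable def JJ (F : Type) [Field F] (q k : ℕ) : Ideal (MvPolynomial (Fin 6) F) :=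
  Ideal.span {X 1 * X 2 ^ (q ^ k - 1) - X 0 ^ q ^ k, X 4 * X 5 ^ (q - 1) - X 3 ^ q}

theorem mem_JJ {q k : ℕ}
    {a b : AlgebraicClosure F × AlgebraicClosure F × AlgebraicClosure F} :
    join a b ∈ pts (JJ F q k) ↔ a.2.1 * a.2.2 ^ (q ^ k - 1) = a.1 ^ q ^ k ∧
      b.2.1 * b.2.2 ^ (q - 1) = b.1 ^ q := by
  rw [pts, JJ, zeroLocus_span, Set.mem_ofPred_eq]
  constructor
  · intro h
    have h1 := h _ (Set.mem_insert _ _)
    have h2 := h _ (Set.mem_insert_of_mem _ (Set.mem_singleton _))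
    simp only [map_sub, map_mul, map_pow, aeval_X, join, Matrix.cons_val, sub_eq_zero] at h1 h2
    exact ⟨h1, h2⟩
  · rintro ⟨h1, h2⟩ p hp
    rcases hp with rfl | hp
    · simp only [map_sub, map_mul, map_pow, aeval_X, join, Matrix.cons_val, sub_eq_zero]
      exact h1
    · rw [Set.mem_singleton_iff] at hp
      subst hp
      simp only [map_sub, map_mul, map_pow, aeval_X, join, Matrix.cons_val, sub_eq_zero]
      exact h2

theorem pt_mem {K : Type} [Field K] {q k : ℕ} (hq : 2 ≤ q) (c z : K) :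
    (pt c (c ^ q ^ k) z).2.1 * (pt c (c ^ q ^ k) z).2.2 ^ (q ^ k - 1)
      = (pt c (c ^ q ^ k) z).1 ^ q ^ k := by
  have h : 1 ≤ q ^ k := Nat.one_le_pow _ _ (by omega)
  obtain ⟨r, hr⟩ : ∃ r, q ^ k = r + 1 := ⟨q ^ k - 1, by omega⟩
  simp only [pt, hr, Nat.add_sub_cancel, mul_pow]
  ring

end

section

variable {F : Type} [Field F] [Finite F]

/-- each half of a point of `J_k` is eventually zero -/
theorem half_nil {k : ℕ} (a : AlgebraicClosure F × AlgebraicClosure F ×
    AlgebraicClosure F)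
    (h : a.2.1 * a.2.2 ^ ((Nat.card F) ^ k - 1) = a.1 ^ (Nat.card F) ^ k) :
    ∃ n : ℕ, ∀ m : ℕ, n ≤ m → (step (Nat.card F))^[m] a = (0, 0, 0) := by
  have hq : 2 ≤ Nat.card F := two_le_card
  obtain ⟨q, hqq⟩ : ∃ q, q = Nat.card F := ⟨_, rfl⟩
  rw [← hqq] at h hq ⊢
  by_cases hz : a.2.2 = 0
  · refine ⟨1, fun m hm => ?_⟩
    obtain ⟨m', rfl⟩ : ∃ m', m = m' + 1 := ⟨m - 1, by omega⟩
    rw [Function.iterate_succ_apply, step_zero_third hq a hz, iter_zero hq]
  · obtain ⟨c, hc⟩ : ∃ c, c = a.1 / a.2.2 := ⟨_, rfl⟩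
    have he : a.2.1 / a.2.2 = c ^ q ^ k := by
      rw [hc, div_pow, div_eq_div_iff hz (pow_ne_zero _ hz), ← h, mul_assoc, ← pow_succ]
      have h1 : 1 ≤ q ^ k := Nat.one_le_pow _ _ (by omega)
      rw [Nat.sub_add_cancel h1]
    obtain ⟨m, hm, hper⟩ := exists_period (F := F) c
    rw [← hqq] at hper
    have hper' : ∀ j : ℕ, c ^ q ^ (m * j) = c := by
      intro j
      induction j with
      | zero => simp
      | succ j ih => rw [Nat.mul_succ, pow_add, pow_mul, ih, hper]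
    refine ⟨m * k - k + 1, fun n hn => ?_⟩
    rw [eq_pt hz, ← hc, he, iter_pt hq]
    have hmk : k ≤ m * k := by nlinarith
    have hz0 : zs q c (c ^ q ^ k) a.2.2 n = 0 := by
      refine zs_eq_zero hq (i := m * k - k) ?_ n (by omega)
      rw [← pow_mul, ← pow_add, Nat.add_sub_cancel' hmk]
      exact hper' k
    rw [hz0]
    simp [pt]

theorem geomNilpotent_JJ (k : ℕ) :
    GeomNilpotent (TT F (Nat.card F)) (JJ F (Nat.card F) k) := by
  have hq : 2 ≤ Nat.card F := two_le_card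
  intro 𝔭 h𝔭
  refine ⟨join (0, 0, 0) (0, 0, 0), ?_, ?_⟩
  · rw [act_TT, step_zero_third hq _ rfl]
  · intro y hy
    obtain ⟨a, b, rfl⟩ := exists_join y
    have hle : JJ F (Nat.card F) k ≤ 𝔭 := h𝔭.1.2
    have hmem : join a b ∈ pts (JJ F (Nat.card F) k) :=
      zeroLocus_anti_mono hle hy
    obtain ⟨h1, h2⟩ := mem_JJ.1 hmem
    obtain ⟨n1, hn1⟩ := half_nil a h1
    obtain ⟨n2, hn2⟩ := half_nil (k := 1) b (by simpa using h2)
    refine ⟨n1 + n2 + 1, by omega, ?_⟩
    rw [iter_TT, hn1 _ (by omega), hn2 _ (by omega)]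

end

end R855.Nil
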