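import Pool.Agent.R855.Nil.Fr

/-!
The self-map of affine `5`-space with controlled collapse.
-/

namespace R855.Nil

/-- auxiliary form of degree `Q` -/
def Hp {R : Type} [CommRing R] (Q : ℕ) (x z F : R) : R := x * z ^ (Q - 1) + F ^ Q

/-- auxiliary form of degree `Q + Q^6` -/
def Dp {R : Type} [CommRing R] (Q : ℕ) (x z b F : R) : R :=
  b ^ Q * (Hp Q x z F ^ Q ^ 5 - Hp Q x z F ^ Q ^ 4 * z ^ (Q ^ 6 - Q ^ 5))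

/-- the self-map -/
def t5 {R : Type} [CommRing R] (Q : ℕ) (x z b F w : R) : Fin 5 → R :=
  ![z ^ (Q ^ 8 - Q - Q ^ 6 - Q ^ 4) * Dp Q x z b F * x ^ Q ^ 4,
    z ^ (Q ^ 8 - Q - Q ^ 6) * Dp Q x z b F,
    z ^ (Q ^ 8 - 2 * Q - 2 * Q ^ 6) * Dp Q x z b F ^ 2,
    z ^ (Q ^ 8 - Q - Q ^ 6 - Q ^ 5) * Dp Q x z b F * Hp Q x z F ^ Q ^ 4,
    w ^ Q + z ^ (Q ^ 14 - 1 - Q ^ 5) * Hp Q x z F ^ Q ^ 4 - z ^ (Q ^ 14 - 1) * w ^ Q]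

/-- the point with slopes `c, B, f`, scale `z` and last coordinate `w` -/
def P5 {R : Type} [CommRing R] (c f B z w : R) : Fin 5 → R := ![z * c, z, z * B, z * f, w]

/-- inequalities between the exponents -/
theorem exps {Q : ℕ} (hQ : 2 ≤ Q) : Q ^ 5 ≤ Q ^ 6 ∧ 2 * Q + 2 * Q ^ 6 + 1 ≤ Q ^ 8 ∧
    Q + Q ^ 6 + Q ^ 4 + 1 ≤ Q ^ 8 ∧ Q + Q ^ 6 + Q ^ 5 + 1 ≤ Q ^ 8 ∧ Q ^ 5 + 2 ≤ Q ^ 14 ∧
    1 ≤ Q ^ 4 ∧ 1 ≤ Q ^ 5 ∧ 1 ≤ Q ^ 6 := by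
  have h1 : 1 ≤ Q ^ 4 := Nat.one_le_pow _ _ (by omega)
  have h5 : Q ^ 4 * 2 ≤ Q ^ 5 := by rw [pow_succ Q 4]; exact Nat.mul_le_mul_left _ hQ
  have h6 : Q ^ 5 * 2 ≤ Q ^ 6 := by rw [pow_succ Q 5]; exact Nat.mul_le_mul_left _ hQ
  have h7 : Q ^ 6 * 2 ≤ Q ^ 7 := by rw [pow_succ Q 6]; exact Nat.mul_le_mul_left _ hQ
  have h8 : Q ^ 7 * 2 ≤ Q ^ 8 := by rw [pow_succ Q 7]; exact Nat.mul_le_mul_left _ hQ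
  have h4 : Q * 8 ≤ Q ^ 4 := by
    have : Q ^ 4 = Q * (Q ^ 3) := by ring
    rw [this]
    refine Nat.mul_le_mul_left _ ?_
    calc 8 = 2 ^ 3 := by norm_num
      _ ≤ Q ^ 3 := Nat.pow_le_pow_left hQ 3
  have h14 : Q ^ 8 ≤ Q ^ 14 := Nat.pow_le_pow_right (by omega) (by norm_num)
  have h16 : 16 ≤ Q ^ 4 := by
    calc 16 = 2 ^ 4 := by norm_num
      _ ≤ Q ^ 4 := Nat.pow_le_pow_left hQ 4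
  refine ⟨?_, ?_, ?_, ?_, ?_, ?_, ?_, ?_⟩ <;> omega

theorem Hp_P5 {R : Type} [CommRing R] {Q : ℕ} (hQ : 2 ≤ Q) (c f z : R) :
    Hp Q (z * c) z (z * f) = z ^ Q * (c + f ^ Q) := by
  obtain ⟨r, rfl⟩ : ∃ r, Q = r + 1 := ⟨Q - 1, by omega⟩
  simp only [Hp, Nat.add_sub_cancel, mul_pow]
  ring

theorem Dp_P5 {R : Type} [CommRing R] {Q : ℕ} (hQ : 2 ≤ Q) (c f B z : R) :
    Dp Q (z * c) z (z * B) (z * f) =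
      z ^ (Q + Q ^ 6) * (B ^ Q * ((c + f ^ Q) ^ Q ^ 5 - (c + f ^ Q) ^ Q ^ 4)) := by
  simp only [Dp]
  rw [Hp_P5 hQ]
  obtain ⟨h1, -⟩ := exps hQ
  have e1 : (z ^ Q * (c + f ^ Q)) ^ Q ^ 5 = z ^ Q ^ 6 * (c + f ^ Q) ^ Q ^ 5 := by
    rw [mul_pow, ← pow_mul]
    congr 2
    ring
  have e2 : (z ^ Q * (c + f ^ Q)) ^ Q ^ 4 * z ^ (Q ^ 6 - Q ^ 5)
      = z ^ Q ^ 6 * (c + f ^ Q) ^ Q ^ 4 := by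
    have e3 : Q ^ 6 = Q * Q ^ 4 + (Q ^ 6 - Q ^ 5) := by
      have : Q * Q ^ 4 = Q ^ 5 := by ring
      omega
    calc (z ^ Q * (c + f ^ Q)) ^ Q ^ 4 * z ^ (Q ^ 6 - Q ^ 5)
        = z ^ (Q * Q ^ 4 + (Q ^ 6 - Q ^ 5)) * (c + f ^ Q) ^ Q ^ 4 := by
          rw [mul_pow, ← pow_mul, pow_add]; ring
      _ = z ^ Q ^ 6 * (c + f ^ Q) ^ Q ^ 4 := by rw [← e3]
  rw [e1, e2, mul_pow, pow_add]
  ring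

/-- action in terms of slopes -/
theorem t5_P5 {R : Type} [CommRing R] {Q : ℕ} (hQ : 2 ≤ Q) (c f B z w : R) :
    t5 Q (z * c) z (z * B) (z * f) w =
      P5 (c ^ Q ^ 4) ((c + f ^ Q) ^ Q ^ 4)
        (B ^ Q * ((c + f ^ Q) ^ Q ^ 5 - (c + f ^ Q) ^ Q ^ 4))
        (z ^ Q ^ 8 * (B ^ Q * ((c + f ^ Q) ^ Q ^ 5 - (c + f ^ Q) ^ Q ^ 4)))
        (w ^ Q + z ^ (Q ^ 14 - 1) * ((c + f ^ Q) ^ Q ^ 4 - w ^ Q)) := by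
  obtain ⟨h1, h2, h3, h4, h5, h6, h7, h8⟩ := exps hQ
  simp only [t5, P5]
  rw [Dp_P5 hQ, Hp_P5 hQ]
  obtain ⟨D, hD⟩ : ∃ D, D = B ^ Q * ((c + f ^ Q) ^ Q ^ 5 - (c + f ^ Q) ^ Q ^ 4) := ⟨_, rfl⟩
  rw [← hD]
  have a1 : Q ^ 8 = (Q ^ 8 - Q - Q ^ 6 - Q ^ 4) + (Q + Q ^ 6) + Q ^ 4 := by omega
  have a2 : Q ^ 8 = (Q ^ 8 - Q - Q ^ 6) + (Q + Q ^ 6) := by omega
  have a3 : Q ^ 8 = (Q ^ 8 - 2 * Q - 2 * Q ^ 6) + (Q + Q ^ 6) + (Q + Q ^ 6) := by omega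
  have a4 : Q ^ 8 = (Q ^ 8 - Q - Q ^ 6 - Q ^ 5) + (Q + Q ^ 6) + Q * Q ^ 4 := by
    have : Q * Q ^ 4 = Q ^ 5 := by ring
    omega
  have a5 : Q ^ 14 - 1 = (Q ^ 14 - 1 - Q ^ 5) + Q * Q ^ 4 := by
    have : Q * Q ^ 4 = Q ^ 5 := by ring
    omega
  have b1 : z ^ (Q ^ 8 - Q - Q ^ 6 - Q ^ 4) * (z ^ (Q + Q ^ 6) * D) * (z * c) ^ Q ^ 4
      = z ^ Q ^ 8 * D * c ^ Q ^ 4 := by
    calc _ = z ^ ((Q ^ 8 - Q - Q ^ 6 - Q ^ 4) + (Q + Q ^ 6) + Q ^ 4) * D * c ^ Q ^ 4 := by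
          rw [mul_pow, pow_add z _ (Q ^ 4), pow_add z _ (Q + Q ^ 6)]; ring
      _ = _ := by rw [← a1]
  have b2 : z ^ (Q ^ 8 - Q - Q ^ 6) * (z ^ (Q + Q ^ 6) * D) = z ^ Q ^ 8 * D := by
    calc _ = z ^ ((Q ^ 8 - Q - Q ^ 6) + (Q + Q ^ 6)) * D := by
          rw [pow_add z _ (Q + Q ^ 6)]; ring
      _ = _ := by rw [← a2]
  have b3 : z ^ (Q ^ 8 - 2 * Q - 2 * Q ^ 6) * (z ^ (Q + Q ^ 6) * D) ^ 2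
      = z ^ Q ^ 8 * D * D := by
    calc _ = z ^ ((Q ^ 8 - 2 * Q - 2 * Q ^ 6) + (Q + Q ^ 6) + (Q + Q ^ 6)) * D * D := by
          rw [pow_add z _ (Q + Q ^ 6), pow_add z _ (Q + Q ^ 6)]; ring
      _ = _ := by rw [← a3]
  have b4 : z ^ (Q ^ 8 - Q - Q ^ 6 - Q ^ 5) * (z ^ (Q + Q ^ 6) * D) *
      (z ^ Q * (c + f ^ Q)) ^ Q ^ 4 = z ^ Q ^ 8 * D * (c + f ^ Q) ^ Q ^ 4 := by
    calc _ = z ^ ((Q ^ 8 - Q - Q ^ 6 - Q ^ 5) + (Q + Q ^ 6) + Q * Q ^ 4) * D *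
          (c + f ^ Q) ^ Q ^ 4 := by
          rw [mul_pow, ← pow_mul, pow_add z _ (Q * Q ^ 4), pow_add z _ (Q + Q ^ 6)]; ring
      _ = _ := by rw [← a4]
  have b5 : z ^ (Q ^ 14 - 1 - Q ^ 5) * (z ^ Q * (c + f ^ Q)) ^ Q ^ 4
      = z ^ (Q ^ 14 - 1) * (c + f ^ Q) ^ Q ^ 4 := by
    calc _ = z ^ ((Q ^ 14 - 1 - Q ^ 5) + Q * Q ^ 4) * (c + f ^ Q) ^ Q ^ 4 := by
          rw [mul_pow, ← pow_mul, pow_add z _ (Q * Q ^ 4)]; ring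
      _ = _ := by rw [← a5]
  rw [b1, b2, b3, b4, b5]
  congr 5
  ring

/-- action on points with vanishing scale -/
theorem t5_zero {R : Type} [CommRing R] {Q : ℕ} (hQ : 2 ≤ Q) (x b F w : R) :
    t5 Q x 0 b F w = P5 0 0 0 0 (w ^ Q) := by
  obtain ⟨h1, h2, h3, h4, h5, h6, h7, h8⟩ := exps hQ
  simp only [t5, P5]
  rw [zero_pow (by omega : Q ^ 8 - Q - Q ^ 6 - Q ^ 4 ≠ 0),
    zero_pow (by omega : Q ^ 8 - Q - Q ^ 6 ≠ 0),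
    zero_pow (by omega : Q ^ 8 - 2 * Q - 2 * Q ^ 6 ≠ 0),
    zero_pow (by omega : Q ^ 8 - Q - Q ^ 6 - Q ^ 5 ≠ 0),
    zero_pow (by omega : Q ^ 14 - 1 - Q ^ 5 ≠ 0),
    zero_pow (by omega : Q ^ 14 - 1 ≠ 0)]
  simp

end R855.Nil
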