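import Pool.Agent.R855.Nil.Base

/-!
The Frobenius-type map `t(x,y,z) = (y-x) z^(q^2-q-1) * (x z^(q-1), y^q, z^q)` on triples.
-/

namespace R855.Nil

/-- the map `t` on triples -/
def step {K : Type} [Field K] (q : ℕ) (p : K × K × K) : K × K × K :=
  ((p.2.1 - p.1) * p.2.2 ^ (q ^ 2 - q - 1) * (p.1 * p.2.2 ^ (q - 1)),
    (p.2.1 - p.1) * p.2.2 ^ (q ^ 2 - q - 1) * p.2.1 ^ q,
    (p.2.1 - p.1) * p.2.2 ^ (q ^ 2 - q - 1) * p.2.2 ^ q)

/-- the point with third coordinate `z` and slopes `c`, `e` -/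
def pt {K : Type} [Field K] (c e z : K) : K × K × K := (z * c, z * e, z)

theorem exponent_eq {q : ℕ} (hq : 2 ≤ q) : q ^ 2 - q - 1 + q + 1 = q ^ 2 ∧ 1 ≤ q ^ 2 - q - 1 := by
  have h : q + 2 ≤ q ^ 2 := by nlinarith
  omega

theorem step_pt {K : Type} [Field K] {q : ℕ} (hq : 2 ≤ q) (c e z : K) :
    step q (pt c e z) = pt c (e ^ q) ((e - c) * z ^ q ^ 2) := by
  obtain ⟨h1, h2⟩ := exponent_eq hq
  obtain ⟨s, hs⟩ : ∃ s, s = q ^ 2 - q - 1 := ⟨_, rfl⟩
  obtain ⟨r, hr⟩ : ∃ r, q = r + 1 := ⟨q - 1, by omega⟩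
  have hr' : q - 1 = r := by omega
  simp only [step, pt, ← hs, hr']
  rw [← hs] at h1
  rw [← h1]
  refine Prod.ext ?_ (Prod.ext ?_ ?_)
  · simp only
    rw [hr]
    ring
  · simp only
    ring
  · simp only
    ring

theorem step_zero_third {K : Type} [Field K] {q : ℕ} (hq : 2 ≤ q) (p : K × K × K)
    (h : p.2.2 = 0) : step q p = (0, 0, 0) := by
  obtain ⟨h1, h2⟩ := exponent_eq hq
  simp only [step, h]
  rw [zero_pow (by omega : q ^ 2 - q - 1 ≠ 0)]
  simp

theorem iter_zero {K : Type} [Field K] {q : ℕ} (hq : 2 ≤ q) (n : ℕ) :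
    (step q)^[n] ((0, 0, 0) : K × K × K) = (0, 0, 0) := by
  induction n with
  | zero => rfl
  | succ n ih =>
    rw [Function.iterate_succ_apply', ih, step_zero_third hq _ rfl]

/-- the third coordinates of the iterates of `pt c e z` -/
def zs {K : Type} [Field K] (q : ℕ) (c e z : K) : ℕ → K
  | 0 => z
  | n + 1 => (e ^ q ^ n - c) * (zs q c e z n) ^ q ^ 2

theorem iter_pt {K : Type} [Field K] {q : ℕ} (hq : 2 ≤ q) (c e z : K) (n : ℕ) :
    (step q)^[n] (pt c e z) = pt c (e ^ q ^ n) (zs q c e z n) := by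
  induction n with
  | zero => simp [zs]
  | succ n ih =>
    rw [Function.iterate_succ_apply', ih, step_pt hq, ← pow_mul, ← pow_succ]
    rfl

theorem zs_ne {K : Type} [Field K] {q : ℕ} {c e z : K} (hz : z ≠ 0) (n : ℕ)
    (h : ∀ i < n, e ^ q ^ i ≠ c) : zs q c e z n ≠ 0 := by
  induction n with
  | zero => simpa [zs] using hz
  | succ n ih =>
    simp only [zs]
    exact mul_ne_zero (sub_ne_zero.2 (h n (Nat.lt_succ_self n)))
      (pow_ne_zero _ (ih fun i hi => h i (by omega)))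

theorem zs_eq_zero {K : Type} [Field K] {q : ℕ} (hq : 2 ≤ q) {c e z : K} {i : ℕ}
    (h : e ^ q ^ i = c) (n : ℕ) (hn : i < n) : zs q c e z n = 0 := by
  induction n with
  | zero => omega
  | succ n ih =>
    simp only [zs]
    rcases Nat.lt_succ_iff_lt_or_eq.1 hn with h1 | h1
    · rw [ih h1, zero_pow (by positivity), mul_zero]
    · rw [← h1, h, sub_self, zero_mul]

theorem zs_scale {K : Type} [Field K] {q : ℕ} (c e z : K) (n : ℕ) :
    zs q c e z n = z ^ (q ^ 2) ^ n * zs q c e 1 n := by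
  induction n with
  | zero => simp [zs]
  | succ n ih =>
    simp only [zs]
    rw [ih, mul_pow, ← pow_mul, ← pow_succ]
    ring

theorem eq_pt {K : Type} [Field K] {p : K × K × K} (h : p.2.2 ≠ 0) :
    p = pt (p.1 / p.2.2) (p.2.1 / p.2.2) p.2.2 := by
  refine Prod.ext ?_ (Prod.ext ?_ ?_)
  · simp only [pt]
    field_simp
  · simp only [pt]
    field_simp
  · rfl

theorem pt_inj {K : Type} [Field K] {c e z c' e' z' : K} (hz : z ≠ 0)
    (h : pt c e z = pt c' e' z') : c = c' ∧ e = e' ∧ z = z' := by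
  simp only [pt, Prod.mk.injEq] at h
  obtain ⟨h1, h2, h3⟩ := h
  subst h3
  exact ⟨mul_left_cancel₀ hz h1, mul_left_cancel₀ hz h2, rfl⟩

theorem third_ne_of_step {K : Type} [Field K] {q : ℕ} (hq : 2 ≤ q) {a : K × K × K}
    (h : (step q a).2.2 ≠ 0) : a.2.2 ≠ 0 := by
  intro h0
  rw [step_zero_third hq a h0] at h
  exact h rfl

theorem step_inj {K : Type} [Field K] {q : ℕ} (hq : 2 ≤ q)
    (hinj : ∀ (n : ℕ) (x y : K), x ^ q ^ n = y ^ q ^ n → x = y)
    {a b : K × K × K} (h0 : (step q a).2.2 ≠ 0) (h : step q a = step q b) : a = b := by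
  have ha := third_ne_of_step hq h0
  have h0' : (step q b).2.2 ≠ 0 := by rw [← h]; exact h0
  have hb := third_ne_of_step hq h0'
  rw [eq_pt ha, eq_pt hb, step_pt hq, step_pt hq] at h
  have h00 : (a.2.1 / a.2.2 - a.1 / a.2.2) * a.2.2 ^ q ^ 2 ≠ 0 := by
    rw [eq_pt ha, step_pt hq] at h0
    exact h0
  obtain ⟨h1, h2, h3⟩ := pt_inj h00 h
  have h4 : a.2.1 / a.2.2 = b.2.1 / b.2.2 := by
    apply hinj 1
    simpa using h2
  rw [h1, h4] at h3
  have h5 : b.2.1 / b.2.2 - b.1 / b.2.2 ≠ 0 := by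
    intro h6
    rw [h1, h4, h6, zero_mul] at h00
    exact h00 rfl
  have h7 : a.2.2 = b.2.2 := hinj 2 _ _ (mul_left_cancel₀ h5 h3)
  rw [eq_pt ha, eq_pt hb, h1, h4, h7]

theorem iter_inj {K : Type} [Field K] {q : ℕ} (hq : 2 ≤ q)
    (hinj : ∀ (n : ℕ) (x y : K), x ^ q ^ n = y ^ q ^ n → x = y) (n : ℕ)
    {a b : K × K × K} (h0 : ((step q)^[n] a).2.2 ≠ 0) (h : (step q)^[n] a = (step q)^[n] b) :
    a = b := by
  induction n with
  | zero => exact h
  | succ n ih =>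
    rw [Function.iterate_succ_apply'] at h0
    rw [Function.iterate_succ_apply', Function.iterate_succ_apply'] at h
    exact ih (third_ne_of_step hq h0) (step_inj hq hinj h0 h)

/-- the point `(c', c'^q, 1)` is not in the image of `t` -/
theorem not_image {K : Type} [Field K] {q : ℕ} (hq : 2 ≤ q)
    (hinj : ∀ (n : ℕ) (x y : K), x ^ q ^ n = y ^ q ^ n → x = y) (c : K) (w : K × K × K) :
    step q w ≠ pt c (c ^ q) 1 := by
  intro h
  have h0 : (step q w).2.2 ≠ 0 := by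
    rw [h]; exact one_ne_zero
  have hw := third_ne_of_step hq h0
  rw [eq_pt hw, step_pt hq] at h
  obtain ⟨h1, h2, h3⟩ := pt_inj one_ne_zero h.symm
  have h4 : c = w.2.1 / w.2.2 := by
    apply hinj 1
    simpa using h2
  rw [← h4, ← h1, sub_self, zero_mul] at h3
  exact one_ne_zero h3

end R855.Nil
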